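import Mathlib
import Pool.Agent.Lib.helper5.Book
import Pool.Agent.H.MP_2b2760_co.B

set_option autoImplicit false

namespace Pool.Agent.H.MP_01d970_co

open Finset SimpleGraph Relation Pool.Agent.Lib.helper5.Book

abbrev W (C : ℕ) := ((Fin 3 ↪ Fin 7) × Fin (3 * C + 1)) × Fin (C + 2) × Fin (2 * C + 2)

abbrev V (C : ℕ) := Fin 7 ⊕ W C

def e0 (J i j i' j' : ℕ) : Prop :=
  (i = 0 ∧ j = 0 ∧ 1 ≤ i' ∧ j' < J) ∨ (1 ≤ i ∧ j < J ∧ i' = i ∧ j' = J) ∨
    (1 ≤ i ∧ j = J ∧ i' = i + 1 ∧ j' = J)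

def cl (J i j : ℕ) : Fin 3 := if i = 0 then 0 else if j < J then 2 else if i % 2 = 0 then 0 else 1

variable {C : ℕ}

def E0 : V C → V C → Prop
  | .inr w, .inr w' => w.1 = w'.1 ∧ e0 (2 * C + 1) w.2.1 w.2.2 w'.2.1 w'.2.2
  | _, _ => False

def E1 : V C → V C → Prop
  | .inl a, .inr w => a = w.1.1 (cl (2 * C + 1) w.2.1 w.2.2)
  | _, _ => False

def GG (C : ℕ) : SimpleGraph (V C) := fromRel fun x y => E0 x y ∨ E1 x y

lemma cl_ne {J i j i' j' : ℕ} (h : e0 J i j i' j') : cl J i j ≠ cl J i' j' := by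
  unfold e0 at h; unfold cl
  split_ifs <;> first | decide | omega

lemma adj_rr {w w' : W C} (h : (GG C).Adj (.inr w) (.inr w')) : w.1 = w'.1 ∧
    (e0 (2 * C + 1) w.2.1 w.2.2 w'.2.1 w'.2.2 ∨ e0 (2 * C + 1) w'.2.1 w'.2.2 w.2.1 w.2.2) := by
  obtain ⟨-, (h | h) | (h | h)⟩ := h
  · exact ⟨h.1, .inl h.2⟩
  · exact h.elim
  · exact ⟨h.1.symm, .inr h.2⟩
  · exact h.elim

lemma adj_lr {a : Fin 7} {w : W C} (h : (GG C).Adj (.inl a) (.inr w)) :
    a = w.1.1 (cl (2 * C + 1) w.2.1 w.2.2) := by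
  obtain ⟨-, (h | h) | (h | h)⟩ := h
  · exact h.elim
  · exact h
  · exact h.elim
  · exact h.elim

lemma adj_ll {a b : Fin 7} (h : (GG C).Adj (.inl a) (.inl b)) : False := by
  obtain ⟨-, (h | h) | (h | h)⟩ := h <;> exact h.elim

lemma tri1 {a : Fin 7} {w w' : W C} (h1 : (GG C).Adj (.inl a) (.inr w))
    (h2 : (GG C).Adj (.inl a) (.inr w')) (h3 : (GG C).Adj (.inr w) (.inr w')) : False := by
  obtain ⟨e, h⟩ := adj_rr h3
  have := (adj_lr h1).symm.trans (adj_lr h2)
  rw [e] at this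
  have := w'.1.1.injective this
  exact h.elim (fun h => cl_ne h this) fun h => cl_ne h this.symm

lemma free : (GG C).CliqueFree 3 := by
  classical
  intro s hs
  obtain ⟨x, y, z, h1, h2, h3, -⟩ := is3Clique_iff.1 hs
  rcases x with x | x <;> rcases y with y | y <;> rcases z with z | z
  · exact adj_ll h1
  · exact adj_ll h1
  · exact adj_ll h2
  · exact tri1 h1 h2 h3
  · exact adj_ll h3
  · exact tri1 h1.symm h3 h2
  · exact tri1 h2.symm h3.symm h1
  · have a := (adj_rr h1).2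
    have b := (adj_rr h2).2
    have c := (adj_rr h3).2
    unfold e0 at a b c
    omega

lemma planar (A : Finset (V C)) (hA : ∀ a, .inl a ∈ A) :
    Planar ((GG C).induce {v | v ∉ A}) := by
  classical
  have : (GG C).induce {v | v ∉ A} = fromRel fun x y => E0 x.1 y.1 := by
    ext ⟨x, hx⟩ ⟨y, hy⟩
    rcases x with x | x
    · exact absurd (hA x) hx
    rcases y with y | y
    · exact absurd (hA y) hy
    simp [GG, E1]
  rw [this]
  let ix := Fintype.equivFin ((Fin 3 ↪ Fin 7) × Fin (3 * C + 1))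
  let ρ : V C → ℕ ×ₗ ℕ ×ₗ ℕ := fun v => match v with
    | .inl _ => toLex (0, toLex (0, 0))
    | .inr w => toLex (ix w.1, toLex (w.2.1, w.2.2))
  let pg : V C → Bool := fun v => match v with
    | .inl _ => true
    | .inr w => decide (w.2.1.1 = 0)
  refine book _ (fun x => ρ x.1) ?_ (fun x _ => pg x.1) ?_ ?_
  · rintro ⟨x | x, hx⟩ ⟨y | y, hy⟩ h
    · exact absurd (hA x) hx
    · exact absurd (hA x) hx
    · exact absurd (hA y) hy
    · simp only [ρ, toLex_inj, Prod.mk.injEq] at h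
      refine Subtype.ext (congrArg Sum.inr (Prod.ext (ix.injective (Fin.ext h.1))
        (Prod.ext (Fin.ext h.2.1) (Fin.ext h.2.2))))
  · rintro ⟨x | x, hx⟩ ⟨y | y, hy⟩ h
    · exact h.elim
    · exact h.elim
    · exact h.elim
    · obtain ⟨h1, h2⟩ := h
      unfold e0 at h2
      simp only [ρ, h1, Prod.Lex.toLex_lt_toLex, lt_irrefl, true_and, false_or]
      omega
  · rintro ⟨x | x, hx⟩ ⟨y | y, hy⟩ ⟨z | z, hz⟩ ⟨u | u, hu⟩ h h' e
    all_goals first | exact h.elim | exact h'.elim | skip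
    obtain ⟨h1, h2⟩ := h
    obtain ⟨h3, h4⟩ := h'
    unfold e0 at h2 h4
    simp only [pg, decide_eq_decide] at e
    simp only [ρ, h1, h3, Prod.Lex.toLex_lt_toLex]
    omega

lemma force (c : V C → Fin 3) (H : ∀ v (S : Finset (V C)),
    (∀ y ∈ S, ((GG C) ⊓ fromRel (fun x y => c x = c y)).Reachable v y) → S.card ≤ C) : False := by
  classical
  have mk : ∀ x y, (GG C).Adj x y → c x = c y →
      ((GG C) ⊓ fromRel (fun x y => c x = c y)).Adj x y := fun x y h e => ⟨h, h.ne, .inl e⟩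
  have star : ∀ {β : Type} (v : V C) (D : Finset β) (φ : β → V C), Function.Injective φ →
      (∀ a ∈ D, (GG C).Adj v (φ a) ∧ c v = c (φ a)) → D.card ≤ C := by
    intro β v D φ hφ h
    rw [← card_image_of_injective D hφ]
    refine H v _ fun y hy => ?_
    obtain ⟨a, ha, rfl⟩ := mem_image.1 hy
    exact (mk _ _ (h a ha).1 (h a ha).2).reachable
  obtain ⟨g, hg⟩ := Fintype.exists_lt_card_fiber_of_mul_lt_card (fun a : Fin 7 => c (.inl a))
    (n := 2) (by simp)
  obtain ⟨τ, hτ⟩ := Function.Embedding.exists_of_card_le_finset (α := Fin 3)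
    (s := univ.filter fun a : Fin 7 => c (.inl a) = g) (by rw [Fintype.card_fin]; exact hg)
  have hτ' : ∀ r, c (.inl (τ r)) = g := fun r => by simpa using hτ ⟨r, rfl⟩
  obtain ⟨t, ht⟩ : ∃ t : Fin (3 * C + 1), ∀ p, c (.inr ((τ, t), p)) ≠ g := by
    by_contra hn
    push Not at hn
    choose p hp using hn
    obtain ⟨r, hr⟩ := Fintype.exists_lt_card_fiber_of_mul_lt_card
      (fun t => cl (2 * C + 1) (p t).1 (p t).2) (n := C) (by simp)
    refine absurd (star (.inl (τ r)) _ (fun t => .inr ((τ, t), p t))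
      (fun a b e => by simp at e; exact e.1) fun t ht => ?_) (not_le.2 hr)
    have := (mem_filter.1 ht).2
    exact ⟨⟨by simp, .inl (.inr (by rw [← this]; rfl))⟩, by rw [hτ', hp]⟩
  let v : Fin (C + 2) → Fin (2 * C + 2) → V C := fun i j => .inr ((τ, t), i, j)
  have ad : ∀ i j i' j', e0 (2 * C + 1) i.1 j.1 i'.1 j'.1 → (GG C).Adj (v i j) (v i' j') := by
    intro i j i' j' h
    refine ⟨fun e => ?_, .inl (.inl ⟨rfl, h⟩)⟩
    simp only [v, Sum.inr.injEq, Prod.mk.injEq, true_and] at e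
    obtain ⟨rfl, rfl⟩ := e
    exact cl_ne h rfl
  have same : ∀ i : Fin (C + 1), c (v i.succ (Fin.last _)) = c (v 0 0) := by
    intro i
    by_contra hn
    obtain ⟨b, hb⟩ := Fintype.exists_lt_card_fiber_of_mul_lt_card
      (fun j : Fin (2 * C + 1) => decide (c (v i.succ j.castSucc) = c (v 0 0))) (n := C) (by simp)
    have inj : Function.Injective fun j : Fin (2 * C + 1) => v i.succ j.castSucc :=
      fun a b e => by simpa [v] using e
    cases b
    · refine absurd (star (v i.succ (Fin.last _)) _ _ inj fun j hj => ⟨(ad _ _ _ _ ?_).symm, ?_⟩)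
        (not_le.2 hb)
      · exact .inr (.inl ⟨by simp, j.2, rfl, rfl⟩)
      · have a1 : c (v i.succ j.castSucc) ≠ c (v 0 0) := by simpa using (mem_filter.1 hj).2
        have a2 := ht (i.succ, j.castSucc)
        have a3 := ht (i.succ, Fin.last _)
        have a4 := ht (0, 0)
        change c (v _ _) ≠ g at a2 a3 a4
        revert hn a1 a2 a3 a4
        generalize c (v i.succ j.castSucc) = x
        generalize c (v i.succ (Fin.last _)) = y
        generalize c (v 0 0) = z
        generalize g = g'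
        revert x y z g'; decide
    · refine absurd (star (v 0 0) _ _ inj fun j hj => ⟨ad _ _ _ _ ?_, ?_⟩) (not_le.2 hb)
      · exact .inl ⟨rfl, rfl, by simp, j.2⟩
      · have : c (v i.succ j.castSucc) = c (v 0 0) := by simpa using (mem_filter.1 hj).2
        exact this.symm
  have rch : ∀ i : Fin (C + 1), ((GG C) ⊓ fromRel (fun x y => c x = c y)).Reachable
      (v (Fin.succ 0) (Fin.last _)) (v i.succ (Fin.last _)) := by
    intro i
    induction i using Fin.induction with
    | zero => rfl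
    | succ i ih =>
      refine ih.trans (mk _ _ (ad _ _ _ _ ?_) (by rw [same, same])).reachable
      exact .inr (.inr ⟨by simp, rfl, by simp, rfl⟩)
  have := H _ (univ.image fun i : Fin (C + 1) => v i.succ (Fin.last _)) (by
    intro y hy
    obtain ⟨i, -, rfl⟩ := mem_image.1 hy
    exact rch i)
  rw [card_image_of_injective _ (fun a b e => by simpa [v] using e)] at this
  simp at this

end Pool.Agent.H.MP_01d970_co
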